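import Pool.Agent.H20.RT.Stmts

/-!
Row RES of board rt (MP_a315fd_nt): the final statement from E0, E1 and FIN.
-/

set_option autoImplicit false

namespace Pool.RT

theorem RES_thm (h0 : E0Stmt) (h1 : E1Stmt) (hf : FINStmt) : RESStmt := by
  obtain ⟨C, X0, h⟩ := hf
  refine ⟨C, X0, fun X hX => ⟨?_, ?_⟩⟩
  · refine (h 1 le_rfl X hX).trans ?_
    have hsub : {n : ℕ | 1 ≤ n ∧ n ≤ X ∧ ∃ k : ℕ, T^[k] n = Wd (1 + 2) 3 0 0 0 0 0 0 0} ⊆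
        {n : ℕ | 1 ≤ n ∧ n ≤ X ∧ ∃ k p : ℕ, 0 < p ∧ T^[k + p] n = T^[k] n} := by
      rintro n ⟨hn1, hn2, k, hk⟩
      refine ⟨hn1, hn2, 17 + k, 2, by norm_num, ?_⟩
      have e : 17 + k + 2 = 19 + k := by omega
      rw [e, Function.iterate_add_apply, Function.iterate_add_apply, hk]
      exact h1
    have hfin : {n : ℕ | 1 ≤ n ∧ n ≤ X ∧ ∃ k p : ℕ, 0 < p ∧ T^[k + p] n = T^[k] n}.Finite :=
      (Set.finite_Iic X).subset (fun n hn => hn.2.1)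
    exact_mod_cast Set.ncard_le_ncard hsub hfin
  · refine (h 0 (by norm_num) X hX).trans ?_
    have hsub : {n : ℕ | 1 ≤ n ∧ n ≤ X ∧ ∃ k : ℕ, T^[k] n = Wd (0 + 2) 3 0 0 0 0 0 0 0} ⊆
        {n : ℕ | 1 ≤ n ∧ n ≤ X ∧ ∃ k m : ℕ, 2 ≤ m ∧ T^[k] n =
          Nat.ofDigits 10 (List.replicate 4 4 ++ List.replicate m 3 ++ [2, 1])} := by
      rintro n ⟨hn1, hn2, k, hk⟩
      refine ⟨hn1, hn2, 9 + k, 3, by norm_num, ?_⟩
      rw [Function.iterate_add_apply, hk]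
      exact h0
    have hfin : {n : ℕ | 1 ≤ n ∧ n ≤ X ∧ ∃ k m : ℕ, 2 ≤ m ∧ T^[k] n =
          Nat.ofDigits 10 (List.replicate 4 4 ++ List.replicate m 3 ++ [2, 1])}.Finite :=
      (Set.finite_Iic X).subset (fun n hn => hn.2.1)
    exact_mod_cast Set.ncard_le_ncard hsub hfin

end Pool.RT
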